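import Pool.Agent.MultiBoard.Core

set_option autoImplicit false

/-! If `#K < cf #(ℕ → M)` and there are at most `#(ℕ → M)` strategies with letters in `M`,
then `D(L, K)` fails for every `L` containing `M`. -/

namespace Pool.Agent.MultiBoard

open Cardinal Set

universe u

theorem exists_bound {T : Type u} [LinearOrder T] (X : Set T) (h : #X < Order.cof T) :
    ∃ b, ∀ x ∈ X, x < b := by
  by_contra hcon
  push Not at hcon
  have : IsCofinal X := fun a => by
    obtain ⟨x, hx, hax⟩ := hcon a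
    exact ⟨x, hx, hax⟩
  exact absurd (Order.cof_le this) (not_le.mpr h)

/-- The diagonal sequence of plays. -/
theorem exists_diag {M T : Type u} [LinearOrder T] (e : T → (List M → M))
    (hT : ∀ ξ : T, #(Iio ξ) < #(ℕ → M)) :
    ∃ a : T → (ℕ → M), (∀ ξ, Fol 1 (e ξ) (a ξ)) ∧ ∀ ξ η, η < ξ → ¬ Fol 0 (e η) (a ξ) := by
  have main : ∀ ξ : T, ∃ z : ℕ → M, Fol 1 (e ξ) z ∧ ∀ η, η < ξ → ¬ Fol 0 (e η) z := by
    intro ξ
    by_contra hcon
    push Not at hcon
    have h1 : ∀ x : ℕ → M, ∃ η : Iio ξ, Fol 0 (e η.1) (run 1 (e ξ) (fun n => x (n / 2))) := by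
      intro x
      obtain ⟨η, hη, hf⟩ := hcon (run 1 (e ξ) (fun n => x (n / 2))) (fol_run _ _ _)
      exact ⟨⟨η, hη⟩, hf⟩
    choose g hg using h1
    have hinj : Function.Injective g := by
      intro x y hxy
      have hz := fol_unique (hg x) (fol_run _ _ _) (hxy ▸ hg y) (fol_run _ _ _)
      funext n
      have := congrFun hz (2 * n)
      rw [run_other _ _ _ _ (by omega), run_other _ _ _ _ (by omega)] at this
      simpa using this
    exact absurd (mk_le_of_injective hinj) (not_le.mpr (hT ξ))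
  choose a ha using main
  exact ⟨a, fun ξ => (ha ξ).1, fun ξ η h => (ha ξ).2 η h⟩

theorem iio_lt (c : Cardinal.{u}) (i : c.ord.ToType) : #(Iio i) < c := by
  simpa using mk_Iio_lt i

theorem exists_order (c : Cardinal.{u}) : ∃ (T : Type u) (_ : LinearOrder T),
    #T = c ∧ Order.cof T = c.ord.cof ∧ ∀ ξ : T, #(Iio ξ) < c :=
  ⟨c.ord.ToType, inferInstance, by simp, Ordinal.cof_toType _, iio_lt c⟩

theorem not_det_cof {L K M : Type u} (α0 : K) (ι : M → L) (π : L → M)
    (hπ : ∀ m, π (ι m) = m) (m0 : M) (hs : #(List M → M) ≤ #(ℕ → M))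
    (hK : #K < (#(ℕ → M)).ord.cof) : ¬ Det L K := by
  classical
  obtain ⟨T, hT, hTc, hcof, hIio⟩ := exists_order #(ℕ → M)
  -- all strategies are enumerated by `T`
  have : Nonempty (List M → M) := ⟨fun _ => m0⟩
  obtain ⟨j⟩ : Nonempty ((List M → M) ↪ T) := by
    rw [← Cardinal.le_def, hTc]; exact hs
  obtain ⟨e, he⟩ : ∃ e : T → (List M → M), Function.Surjective e :=
    ⟨Function.invFun j, Function.invFun_surjective j.injective⟩
  obtain ⟨a, ha1, ha2⟩ := exists_diag e hIio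
  intro hD
  rcases hD {z | ∃ ξ, (fun n => π (z n)) = a ξ} with ⟨σ, hσ⟩ | ⟨τ, hτ⟩
  · -- ONE has no winning strategy
    choose η hη using fun α : K => he (pr 0 σ ι π m0 α)
    obtain ⟨ξ0, hξ0⟩ := exists_bound (range η) (lt_of_le_of_lt mk_range_le (hcof ▸ hK))
    have hbad : #(range fun ξ : Iio ξ0 => fun n : ℕ => a ξ.1 (2 * n + 1)) < #(ℕ → M) :=
      lt_of_le_of_lt mk_range_le (hIio ξ0)
    obtain ⟨t, ht⟩ : ∃ t : ℕ → M, t ∉ range fun ξ : Iio ξ0 => fun n : ℕ => a ξ.1 (2 * n + 1) := by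
      by_contra hcon
      push Not at hcon
      have : (range fun ξ : Iio ξ0 => fun n : ℕ => a ξ.1 (2 * n + 1)) = Set.univ := by
        ext t; simpa using hcon t
      rw [this, mk_univ] at hbad
      exact lt_irrefl _ hbad
    obtain ⟨α, ξ, hξ⟩ := hσ (run 0 σ (fun n _ => ι (t (n / 2)))) (fol_one _ _ (fol_run _ _ _))
    have hf := pr_fol 0 σ ι π hπ m0 α (fun n => t (n / 2))
    have ho := pr_other 0 σ ι π hπ α (fun n => t (n / 2))
    rw [hξ] at hf
    have hge : ξ0 ≤ ξ := by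
      by_contra hlt
      apply ht
      refine ⟨⟨ξ, not_le.mp hlt⟩, ?_⟩
      funext n
      have h2 := congrFun hξ (2 * n + 1)
      have h3 := ho (2 * n + 1) (by omega)
      have h4 : (2 * n + 1) / 2 = n := by omega
      rw [h4] at h3
      exact h2.symm.trans h3
    exact ha2 ξ (η α) (lt_of_lt_of_le (hξ0 _ ⟨α, rfl⟩) hge) (by rw [hη α]; exact hf)
  · -- TWO has no winning strategy
    obtain ⟨ξ, hξ⟩ := he (pr 1 τ ι π m0 α0)
    refine hτ (run 1 τ (fun n _ => ι (a ξ n))) (fol_two _ _ (fol_run _ _ _)) α0 ⟨ξ, ?_⟩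
    have hf := pr_fol 1 τ ι π hπ m0 α0 (a ξ)
    have ho := pr_other 1 τ ι π hπ α0 (a ξ)
    rw [← hξ] at hf
    rw [hf.eq_run (a ξ) ho]
    exact ((ha1 ξ).eq_run (a ξ) (fun n _ => rfl)).symm

end Pool.Agent.MultiBoard
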