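import Mathlib

set_option autoImplicit false

/-! Multiboard Gale-Stewart games: definitions, runs of strategies, projection to one board. -/

namespace Pool.Agent.MultiBoard

open Cardinal Set

universe u

/-- ONE has a winning strategy in the game with payoff set `A` on the boards `K`. -/
def OneWins {L : Type u} (K : Type u) (A : Set (ℕ → L)) : Prop :=
  ∃ σ : List (K → L) → (K → L), ∀ f : ℕ → K → L,
    (∀ n : ℕ, f (2 * n) = σ (List.ofFn (fun i : Fin (2 * n) => f i.val))) →
      ∃ α : K, (fun n : ℕ => f n α) ∈ A

/-- TWO has a winning strategy in the game with payoff set `A` on the boards `K`. -/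
def TwoWins {L : Type u} (K : Type u) (A : Set (ℕ → L)) : Prop :=
  ∃ τ : List (K → L) → (K → L), ∀ f : ℕ → K → L,
    (∀ n : ℕ, f (2 * n + 1) = τ (List.ofFn (fun i : Fin (2 * n + 1) => f i.val))) →
      ∀ α : K, (fun n : ℕ => f n α) ∉ A

/-- `D(λ, κ)` for `λ = #L`, `κ = #K`. -/
def Det (L K : Type u) : Prop :=
  ∀ A : Set (ℕ → L), OneWins K A ∨ TwoWins K A

section Run

variable {X : Type u}

/-- The play in which the moves at times `n` with `n % 2 = p` are made by the strategy `s`,
all others are given by `y`. -/
noncomputable def run (p : ℕ) (s : List X → X) (y : ℕ → X) : ℕ → X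
  | n => if n % 2 = p then s (List.ofFn (fun i : Fin n => run p s y i.val)) else y n
termination_by n => n
decreasing_by exact i.2

theorem run_eq (p : ℕ) (s : List X → X) (y : ℕ → X) (n : ℕ) :
    run p s y n = if n % 2 = p then s (List.ofFn (fun i : Fin n => run p s y i.val)) else y n := by
  rw [run]

theorem run_congr (p : ℕ) (s : List X → X) (y y' : ℕ → X) (N : ℕ)
    (h : ∀ m, m ≤ N → m % 2 ≠ p → y m = y' m) : ∀ n, n ≤ N → run p s y n = run p s y' n := by
  intro n
  induction n using Nat.strong_induction_on with
  | _ n ih =>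
    intro hn
    rw [run_eq, run_eq p s y']
    split_ifs with hp
    · congr 1
      congr 1
      funext i
      exact ih i.val i.2 (le_trans i.2.le hn)
    · exact h n hn hp

theorem run_unique (p : ℕ) (s : List X → X) (y z : ℕ → X)
    (h : ∀ n, z n = if n % 2 = p then s (List.ofFn (fun i : Fin n => z i.val)) else y n) :
    z = run p s y := by
  funext n
  induction n using Nat.strong_induction_on with
  | _ n ih =>
    rw [h n, run_eq]
    split_ifs with hp
    · congr 1
      congr 1
      funext i
      exact ih i.val i.2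
    · rfl

/-- `z` is a play in which the moves at times of parity `p` are made by `s`. -/
def Fol (p : ℕ) (s : List X → X) (z : ℕ → X) : Prop :=
  ∀ n, n % 2 = p → z n = s (List.ofFn (fun i : Fin n => z i.val))

theorem fol_run (p : ℕ) (s : List X → X) (y : ℕ → X) : Fol p s (run p s y) := by
  intro n hn
  rw [run_eq, if_pos hn]

theorem run_other (p : ℕ) (s : List X → X) (y : ℕ → X) (n : ℕ) (hn : n % 2 ≠ p) :
    run p s y n = y n := by
  rw [run_eq, if_neg hn]

theorem Fol.eq_run {p : ℕ} {s : List X → X} {z : ℕ → X} (h : Fol p s z) (y : ℕ → X)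
    (hy : ∀ n, n % 2 ≠ p → z n = y n) : z = run p s y := by
  apply run_unique
  intro n
  split_ifs with hp
  · exact h n hp
  · exact hy n hp

/-- A play in which both players follow given strategies is unique. -/
theorem fol_unique {s t : List X → X} {z z' : ℕ → X} (h0 : Fol 0 s z) (h1 : Fol 1 t z)
    (h0' : Fol 0 s z') (h1' : Fol 1 t z') : z = z' := by
  funext n
  induction n using Nat.strong_induction_on with
  | _ n ih =>
    have e : List.ofFn (fun i : Fin n => z i.val) = List.ofFn (fun i : Fin n => z' i.val) := by
      congr 1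
      funext i
      exact ih i.val i.2
    rcases Nat.mod_two_eq_zero_or_one n with h | h
    · rw [h0 n h, h0' n h, e]
    · rw [h1 n h, h1' n h, e]

end Run

section Proj

variable {L K M : Type u}

/-- The one board strategy with letters in `M` induced on the board `α` by a strategy `S` on all
boards, when the opponent plays the letters `ι m` on all boards. -/
noncomputable def pr (p : ℕ) (S : List (K → L) → (K → L)) (ι : M → L) (π : L → M) (m0 : M)
    (α : K) : List M → M :=
  fun s => π (run p S (fun n _ => ι (s.getD n m0)) s.length α)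

theorem pr_fol (p : ℕ) (S : List (K → L) → (K → L)) (ι : M → L) (π : L → M)
    (hπ : ∀ m, π (ι m) = m) (m0 : M) (α : K) (x : ℕ → M) :
    Fol p (pr p S ι π m0 α) (fun n => π (run p S (fun n _ => ι (x n)) n α)) := by
  intro n hn
  simp only [pr, List.length_ofFn]
  have h := run_congr p S (fun n _ => ι (x n))
    (fun m (_ : K) => ι ((List.ofFn (fun i : Fin n =>
      π (run p S (fun n _ => ι (x n)) i.val α))).getD m m0)) n ?_ n le_rfl
  · rw [← h]
  · intro m hm hmp
    have hmn : m < n := by
      rcases Nat.lt_or_ge m n with h | h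
      · exact h
      · exact absurd (le_antisymm hm h ▸ hn) hmp
    funext _
    congr 1
    rw [List.getD_eq_getElem _ _ (by simpa using hmn)]
    simp only [List.getElem_ofFn]
    rw [run_other _ _ _ _ hmp, hπ]

theorem pr_other (p : ℕ) (S : List (K → L) → (K → L)) (ι : M → L) (π : L → M)
    (hπ : ∀ m, π (ι m) = m) (α : K) (x : ℕ → M) (n : ℕ) (hn : n % 2 ≠ p) :
    π (run p S (fun n _ => ι (x n)) n α) = x n := by
  rw [run_other _ _ _ _ hn, hπ]

end Proj

theorem fol_two {L K : Type u} (τ : List (K → L) → (K → L)) (f : ℕ → K → L) (h : Fol 1 τ f) :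
    ∀ n : ℕ, f (2 * n + 1) = τ (List.ofFn (fun i : Fin (2 * n + 1) => f i.val)) :=
  fun n => h (2 * n + 1) (by omega)

theorem fol_one {L K : Type u} (σ : List (K → L) → (K → L)) (f : ℕ → K → L) (h : Fol 0 σ f) :
    ∀ n : ℕ, f (2 * n) = σ (List.ofFn (fun i : Fin (2 * n) => f i.val)) :=
  fun n => h (2 * n) (by omega)

end Pool.Agent.MultiBoard
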