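import Pool.Agent.MultiBoard.Split

set_option autoImplicit false

/-! If `#K < μ ≤ #L` with `μ` regular and uncountable, then `D(L, K)` fails. -/

namespace Pool.Agent.MultiBoard

open Cardinal Set

universe u

theorem cofSeq_of {T : Type u} [LinearOrder T] (p : ℕ) (hp : p < 2) (F : List T → T) (δ : T)
    (hcl : Cl F δ) (e : ℕ → T) (he : CofSeq e δ) (z : ℕ → T)
    (h1 : ∀ n, n % 2 = p → z n ≤ F (List.ofFn (fun i : Fin n => z i.val)))
    (h2 : ∀ n, n % 2 ≠ p → z n = e (n / 2)) : CofSeq z δ := by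
  refine ⟨fun n => ?_, fun x hx => ?_⟩
  · induction n using Nat.strong_induction_on with
    | _ n ih =>
      by_cases hn : n % 2 = p
      · refine lt_of_le_of_lt (h1 n hn) (hcl _ ?_)
        intro x hx
        obtain ⟨i, rfl⟩ := List.mem_ofFn.mp hx
        exact ih i.val i.2
      · rw [h2 n hn]
        exact he.1 _
  · obtain ⟨n, hn⟩ := he.2 x hx
    refine ⟨2 * n + (1 - p), ?_⟩
    rw [h2 _ (by omega)]
    have : (2 * n + (1 - p)) / 2 = n := by omega
    rw [this]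
    exact hn

theorem not_det_reg {L K : Type u} (α0 : K) (μ : Cardinal.{u}) (hμ : μ.IsRegular) (h0 : ℵ₀ < μ)
    (hK : #K < μ) (hL : μ ≤ #L) : ¬ Det L K := by
  classical
  have hb : ∀ X : Set μ.ord.ToType, #X < μ → ∃ b, ∀ x ∈ X, x < b := fun X hX =>
    exists_bound X (by rw [Ordinal.cof_toType, hμ.cof_ord]; exact hX)
  have hne : Nonempty μ.ord.ToType := by
    obtain ⟨b, _⟩ := hb ∅ (by rw [mk_eq_zero]; exact hμ.pos)
    exact ⟨b⟩
  obtain ⟨S, S', hdis, hS, hS', hst, hst'⟩ := exists_split μ h0 hb (iio_lt μ)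
  obtain ⟨j⟩ : Nonempty (μ.ord.ToType ↪ L) := by
    rw [← Cardinal.le_def]; simpa using hL
  obtain ⟨π, hπ⟩ : ∃ π : L → μ.ord.ToType, ∀ m, π (j m) = m :=
    ⟨Function.invFun j, Function.leftInverse_invFun j.injective⟩
  let m0 : μ.ord.ToType := Classical.arbitrary _
  intro hD
  rcases hD {z | ∃ δ ∈ S, CofSeq (fun n => π (z n)) δ} with ⟨σ, hσ⟩ | ⟨τ, hτ⟩
  · -- ONE has no winning strategy
    have h3 : ∀ s : List μ.ord.ToType, ∃ b, ∀ α : K, pr 0 σ j π m0 α s < b := by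
      intro s
      obtain ⟨b, hbb⟩ := hb (range fun α : K => pr 0 σ j π m0 α s)
        (lt_of_le_of_lt mk_range_le hK)
      exact ⟨b, fun α => hbb _ ⟨α, rfl⟩⟩
    choose H hH using h3
    obtain ⟨δ, hδ, hcl⟩ := hst' H
    obtain ⟨e, he⟩ := hS' δ hδ
    obtain ⟨α, δ', hδ', hα⟩ :=
      hσ (run 0 σ (fun n _ => j (e (n / 2)))) (fol_one _ _ (fol_run _ _ _))
    have hz : CofSeq (fun n => π (run 0 σ (fun n _ => j (e (n / 2))) n α)) δ := by
      refine cofSeq_of 0 (by omega) H δ hcl e he _ ?_ ?_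
      · intro n hn
        have := pr_fol 0 σ j π hπ m0 α (fun n => e (n / 2)) n hn
        exact le_of_eq_of_le this (hH _ α).le
      · intro n hn
        exact pr_other 0 σ j π hπ α (fun n => e (n / 2)) n hn
    have := hz.eq hα
    subst this
    exact Set.disjoint_left.mp hdis hδ' hδ
  · -- TWO has no winning strategy
    obtain ⟨δ, hδ, hcl⟩ := hst (pr 1 τ j π m0 α0)
    obtain ⟨e, he⟩ := hS δ hδ
    refine hτ (run 1 τ (fun n _ => j (e (n / 2)))) (fol_two _ _ (fol_run _ _ _)) α0 ⟨δ, hδ, ?_⟩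
    refine cofSeq_of 1 (by omega) _ δ hcl e he _ ?_ ?_
    · intro n hn
      exact (pr_fol 1 τ j π hπ m0 α0 (fun n => e (n / 2)) n hn).le
    · intro n hn
      exact pr_other 1 τ j π hπ α0 (fun n => e (n / 2)) n hn

end Pool.Agent.MultiBoard
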