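import Pool.Agent.MultiBoard.CofCase

set_option autoImplicit false

/-! Two disjoint sets of points of cofinality `ω` of a regular uncountable well-order both of which
meet every set of closure points. -/

namespace Pool.Agent.MultiBoard

open Cardinal Set

universe u

section

variable {T : Type u} [LinearOrder T]

/-- `δ` is closed under `F`. -/
def Cl (F : List T → T) (δ : T) : Prop := ∀ s : List T, (∀ x ∈ s, x < δ) → F s < δ

/-- `e` is a cofinal sequence in `δ`. -/
def CofSeq (e : ℕ → T) (δ : T) : Prop := (∀ n, e n < δ) ∧ ∀ x, x < δ → ∃ n, x ≤ e n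

/-- `S` meets every set of closure points. -/
def Stat (S : Set T) : Prop := ∀ F : List T → T, ∃ δ ∈ S, Cl F δ

theorem CofSeq.eq {e : ℕ → T} {δ δ' : T} (h : CofSeq e δ) (h' : CofSeq e δ') : δ = δ' := by
  rcases lt_trichotomy δ δ' with hlt | heq | hgt
  · obtain ⟨n, hn⟩ := h'.2 δ hlt
    exact absurd (h.1 n) (not_lt.mpr hn)
  · exact heq
  · obtain ⟨n, hn⟩ := h.2 δ' hgt
    exact absurd (h'.1 n) (not_lt.mpr hn)

theorem exists_closed [WellFoundedLT T] (μ : Cardinal.{u}) (h0 : ℵ₀ < μ)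
    (hb : ∀ X : Set T, #X < μ → ∃ b, ∀ x ∈ X, x < b) (hI : ∀ x : T, #(Iio x) < μ)
    (F : List T → T) (x0 : T) : ∃ δ e, x0 < δ ∧ CofSeq e δ ∧ Cl F δ := by
  classical
  -- one step
  have step : ∀ x : T, ∃ y, x < y ∧ ∀ s : List T, (∀ z ∈ s, z ≤ x) → F s < y := by
    intro x
    obtain ⟨x', hx'⟩ := hb {x} (by
      rw [mk_singleton]; exact lt_trans one_lt_aleph0 h0)
    have hx'' : x < x' := hx' x rfl
    have hcard : #(insert x (range fun s : List (Iio x') => F (s.map Subtype.val)) : Set T) < μ := by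
      refine lt_of_le_of_lt (mk_insert_le) ?_
      refine Cardinal.add_lt_of_lt h0.le ?_ (lt_trans one_lt_aleph0 h0)
      refine lt_of_le_of_lt mk_range_le ?_
      exact lt_of_le_of_lt (mk_list_le_max _) (max_lt h0 (hI x'))
    obtain ⟨y, hy⟩ := hb _ hcard
    refine ⟨y, hy _ (mem_insert _ _), fun s hs => hy _ (mem_insert_of_mem _ ?_)⟩
    refine ⟨s.attach.map fun z => ⟨z.1, lt_of_le_of_lt (hs z.1 z.2) hx''⟩, ?_⟩
    simp
  choose g hg1 hg2 using step
  -- the sequence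
  let e : ℕ → T := fun n => g^[n] (g x0)
  have hes : ∀ n, e (n + 1) = g (e n) := fun n => by
    simp only [e]; rw [Function.iterate_succ_apply']
  have hmono : StrictMono e := strictMono_nat_of_lt_succ fun n => by rw [hes]; exact hg1 _
  obtain ⟨b, hbe⟩ := hb (range e) (lt_of_le_of_lt (by simpa using mk_range_le (f := fun n : ULift.{u} ℕ => e n.down)) h0)
  have hne : {x | ∀ n, e n < x}.Nonempty := ⟨b, fun n => hbe _ ⟨n, rfl⟩⟩
  set δ := WellFounded.min (wellFounded_lt (α := T)) _ hne with hδ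
  have hδ1 : ∀ n, e n < δ := WellFounded.min_mem (wellFounded_lt (α := T)) _ hne
  have hδ2 : ∀ x, x < δ → ∃ n, x ≤ e n := by
    intro x hx
    by_contra hcon
    push Not at hcon
    exact WellFounded.not_lt_min (wellFounded_lt (α := T)) {x | ∀ n, e n < x} hcon hx
  refine ⟨δ, e, lt_trans (hg1 x0) (hδ1 0), ⟨hδ1, hδ2⟩, ?_⟩
  intro s hs
  have : ∃ n, ∀ x ∈ s, x ≤ e n := by
    induction s with
    | nil => exact ⟨0, by simp⟩
    | cons a s ih =>
      obtain ⟨n, hn⟩ := ih fun x hx => hs x (List.mem_cons_of_mem _ hx)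
      obtain ⟨m, hm⟩ := hδ2 a (hs a List.mem_cons_self)
      refine ⟨max n m, ?_⟩
      intro x hx
      rcases List.mem_cons.mp hx with rfl | hx
      · exact le_trans hm (hmono.monotone (le_max_right _ _))
      · exact le_trans (hn x hx) (hmono.monotone (le_max_left _ _))
  obtain ⟨n, hn⟩ := this
  exact lt_trans (hg2 (e n) s hn) (by rw [← hes]; exact hδ1 (n + 1))

theorem exists_split [WellFoundedLT T] [Nonempty T] (μ : Cardinal.{u}) (h0 : ℵ₀ < μ)
    (hb : ∀ X : Set T, #X < μ → ∃ b, ∀ x ∈ X, x < b) (hI : ∀ x : T, #(Iio x) < μ) :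
    ∃ S S' : Set T, Disjoint S S' ∧ (∀ δ ∈ S, ∃ e, CofSeq e δ) ∧ (∀ δ ∈ S', ∃ e, CofSeq e δ) ∧
      Stat S ∧ Stat S' := by
  classical
  by_contra hcon
  let G : Set T := {δ | ∃ e, CofSeq e δ}
  have hch : ∀ δ : T, ∃ e : ℕ → T, δ ∈ G → CofSeq e δ := by
    intro δ
    by_cases h : δ ∈ G
    · obtain ⟨e, he⟩ := h
      exact ⟨e, fun _ => he⟩
    · exact ⟨fun _ => δ, fun h' => absurd h' h⟩
  choose e he using hch
  let S : ℕ → T → Set T := fun n γ => {δ | δ ∈ G ∧ e δ n = γ}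
  have hSG : ∀ n γ, ∀ δ ∈ S n γ, ∃ e, CofSeq e δ := fun n γ δ h => h.1
  have hstatG : Stat G := fun F => by
    obtain ⟨δ, e, _, h1, h2⟩ := exists_closed μ h0 hb hI F (Classical.arbitrary T)
    exact ⟨δ, ⟨e, h1⟩, h2⟩
  -- for every `n` some value is taken stationarily often
  have h1 : ∀ n, ∃ γ, Stat (S n γ) := by
    intro n
    by_contra hc
    simp only [Stat] at hc
    push Not at hc
    choose F hF using hc
    obtain ⟨δ, hδ, hcl⟩ := hstatG fun s => match s with
      | [] => Classical.arbitrary T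
      | γ :: s => F γ s
    have hlt : e δ n < δ := (he δ hδ).1 n
    refine hF (e δ n) δ ⟨hδ, rfl⟩ ?_
    intro s hs
    refine hcl (e δ n :: s) ?_
    intro x hx
    rcases List.mem_cons.mp hx with rfl | hx
    · exact hlt
    · exact hs x hx
  choose γ hγ using h1
  -- it is taken almost everywhere
  have h2 : ∀ n, ∃ F : List T → T, ∀ δ ∈ G, Cl F δ → e δ n = γ n := by
    intro n
    by_contra hc
    push Not at hc
    refine hcon ⟨S n (γ n), {δ | δ ∈ G ∧ e δ n ≠ γ n}, ?_, hSG n (γ n), fun δ h => h.1, hγ n, ?_⟩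
    · rw [Set.disjoint_left]
      rintro δ ⟨_, h⟩ ⟨_, h'⟩
      exact h' h
    · intro F
      obtain ⟨δ, h, h', h''⟩ := hc F
      exact ⟨δ, ⟨h, h''⟩, h'⟩
  choose F hF using h2
  -- combine countably many
  have h3 : ∀ s : List T, ∃ b, ∀ n, F n s < b := by
    intro s
    obtain ⟨b, hbb⟩ := hb (range fun n => F n s)
      (lt_of_le_of_lt (by simpa using mk_range_le (f := fun n : ULift.{u} ℕ => F n.down s)) h0)
    exact ⟨b, fun n => hbb _ ⟨n, rfl⟩⟩
  choose H hH using h3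
  obtain ⟨δ, e1, _, hc1, hcl1⟩ := exists_closed μ h0 hb hI H (Classical.arbitrary T)
  obtain ⟨δ', e2, hlt, hc2, hcl2⟩ := exists_closed μ h0 hb hI H δ
  have hG1 : δ ∈ G := ⟨e1, hc1⟩
  have hG2 : δ' ∈ G := ⟨e2, hc2⟩
  have hcl1' : ∀ n, Cl (F n) δ := fun n s hs => lt_trans (hH s n) (hcl1 s hs)
  have hcl2' : ∀ n, Cl (F n) δ' := fun n s hs => lt_trans (hH s n) (hcl2 s hs)
  have heq : e δ = e δ' := by
    funext n
    rw [hF n δ hG1 (hcl1' n), hF n δ' hG2 (hcl2' n)]
  have := (he δ hG1).eq (heq ▸ he δ' hG2)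
  exact absurd this hlt.ne

end

end Pool.Agent.MultiBoard
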